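import Pool.Agent.Helper65.KH.Goals

/-!
# Project KH, goal SA (subadditivity)
-/

set_option autoImplicit false

open MvPolynomial

namespace Pool.Agent.Helper24.KH.SA

open Pool.Agent.Helper65.KH

theorem key {R : Type} [CommRing R] [Algebra ℚ R] (Q : Ideal R) (a b : R)
    (h1 : Module.Finite ℚ (R ⧸ (Ideal.span {a * b} ⊔ Q)))
    (h2 : Module.Finite ℚ (R ⧸ (Ideal.span {a} ⊔ Q)))
    (h3 : Module.Finite ℚ (R ⧸ (Ideal.span {b} ⊔ Q))) :
    Module.finrank ℚ (R ⧸ (Ideal.span {a * b} ⊔ Q)) ≤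
      Module.finrank ℚ (R ⧸ (Ideal.span {a} ⊔ Q)) +
        Module.finrank ℚ (R ⧸ (Ideal.span {b} ⊔ Q)) := by
  have hab : a * b ∈ (Ideal.span {a} ⊔ Q) := by
    refine Ideal.mem_sup_left ?_
    exact Ideal.mul_mem_right _ _ (Ideal.mem_span_singleton_self a)
  have hg : (Ideal.span {a * b} ⊔ Q) ≤
      Submodule.comap (LinearMap.id : R →ₗ[R] R) (Ideal.span {a} ⊔ Q) := by
    intro x hx
    change x ∈ (Ideal.span {a} ⊔ Q)
    refine (sup_le ?_ le_sup_right : (Ideal.span {a * b} ⊔ Q) ≤ (Ideal.span {a} ⊔ Q)) hx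
    rw [Ideal.span_singleton_le_iff_mem]
    exact hab
  have hh : (Ideal.span {b} ⊔ Q) ≤
      Submodule.comap (a • (LinearMap.id : R →ₗ[R] R)) (Ideal.span {a * b} ⊔ Q) := by
    intro x hx
    change a * x ∈ (Ideal.span {a * b} ⊔ Q)
    rw [Submodule.mem_sup] at hx
    obtain ⟨y, hy, z, hz, rfl⟩ := hx
    rw [Ideal.mem_span_singleton'] at hy
    obtain ⟨c, rfl⟩ := hy
    rw [mul_add]
    refine Ideal.add_mem _ (Ideal.mem_sup_left ?_) (Ideal.mem_sup_right ?_)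
    · rw [Ideal.mem_span_singleton']
      exact ⟨c, by ring⟩
    · exact Ideal.mul_mem_left _ _ hz
  let g : (R ⧸ (Ideal.span {a * b} ⊔ Q)) →ₗ[ℚ] (R ⧸ (Ideal.span {a} ⊔ Q)) :=
    (Submodule.mapQ (Ideal.span {a * b} ⊔ Q) (Ideal.span {a} ⊔ Q)
      (LinearMap.id : R →ₗ[R] R) hg).restrictScalars ℚ
  let h : (R ⧸ (Ideal.span {b} ⊔ Q)) →ₗ[ℚ] (R ⧸ (Ideal.span {a * b} ⊔ Q)) :=
    (Submodule.mapQ (Ideal.span {b} ⊔ Q) (Ideal.span {a * b} ⊔ Q)
      (a • (LinearMap.id : R →ₗ[R] R)) hh).restrictScalars ℚ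
  have hker : LinearMap.ker g ≤ LinearMap.range h := by
    intro x hx
    obtain ⟨x, rfl⟩ := Submodule.Quotient.mk_surjective _ x
    rw [LinearMap.mem_ker] at hx
    have hx' : (Submodule.Quotient.mk x : R ⧸ (Ideal.span {a} ⊔ Q)) = 0 := hx
    rw [Submodule.Quotient.mk_eq_zero, Submodule.mem_sup] at hx'
    obtain ⟨y, hy, z, hz, rfl⟩ := hx'
    rw [Ideal.mem_span_singleton'] at hy
    obtain ⟨c, rfl⟩ := hy
    refine ⟨Submodule.Quotient.mk c, ?_⟩
    change (Submodule.Quotient.mk (a * c) : R ⧸ (Ideal.span {a * b} ⊔ Q)) =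
      Submodule.Quotient.mk (c * a + z)
    rw [Submodule.Quotient.eq]
    have e : a * c - (c * a + z) = -z := by ring
    rw [e]
    exact Submodule.neg_mem _ (Ideal.mem_sup_right hz)
  have e1 := LinearMap.finrank_range_add_finrank_ker g
  have e2 : Module.finrank ℚ (LinearMap.range g) ≤
      Module.finrank ℚ (R ⧸ (Ideal.span {a} ⊔ Q)) := Submodule.finrank_le _
  have e3 : Module.finrank ℚ (LinearMap.ker g) ≤ Module.finrank ℚ (LinearMap.range h) :=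
    Submodule.finrank_mono hker
  have e4 : Module.finrank ℚ (LinearMap.range h) ≤
      Module.finrank ℚ (R ⧸ (Ideal.span {b} ⊔ Q)) := LinearMap.finrank_range_le h
  omega

theorem t (h : S_FD) : S_SA := by
  intro ι _ _ Q a b M
  have h1 := h ι (Ideal.span {a * b} ⊔ Q) M
  have h2 := h ι (Ideal.span {a} ⊔ Q) M
  have h3 := h ι (Ideal.span {b} ⊔ Q) M
  unfold dq
  rw [sup_assoc] at h1 h2 h3
  rw [sup_assoc, sup_assoc, sup_assoc]
  exact key (Q ⊔ mm ι M) a b h1 h2 h3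

end Pool.Agent.Helper24.KH.SA
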